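import Pool.Agent.W217.BE.Stm3

set_option autoImplicit false

namespace Pool.Agent.W445.BEDUALM
open Pool.Agent.W217.BE

theorem main : HTPY → MAC → DUALM := by
  intro hH hM B _ _ _ N _ _ r dX ε e hres hmin hann hr5 hr4 he heh
  obtain ⟨hs, h0, hi⟩ := hres
  set D : Matrix (Fin (r 3)) (Fin (r 4)) B := LinearMap.toMatrix' (dX 3) with hD
  have hDm : ∀ i j, D i j ∈ IsLocalRing.maximalIdeal B := by
    intro i j
    rw [hD, LinearMap.toMatrix'_apply]
    exact hmin 3 _ _
  set T : (Fin (r 3) → B) →ₗ[B] (Fin (r 4) → B) := D.transpose.mulVecLin with hT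
  have hTm : ∀ x j, T x j ∈ IsLocalRing.maximalIdeal B := by
    intro x j
    rw [hT, Matrix.mulVecLin_apply, Matrix.mulVec, dotProduct]
    apply Ideal.sum_mem
    intro i _
    exact Ideal.mul_mem_right _ _ (hDm i j)
  have hdd : ∀ i x, dX i (dX (i + 1) x) = 0 := by
    intro i x
    have : dX (i + 1) x ∈ LinearMap.range (dX (i + 1)) := ⟨x, rfl⟩
    rw [hi i] at this
    exact this
  have hle : Module.annihilator B N ≤
      Module.annihilator B ((Fin (r 4) → B) ⧸ LinearMap.range T) := by
    intro x hx
    rw [Module.mem_annihilator] at hx ⊢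
    obtain ⟨h, hh0, hh⟩ := hH B N (fun i => Fin (r i) → B) (fun i => Fin (r i) → B) dX dX ε
      (fun i => x • LinearMap.id) hdd ⟨hs, h0, hi⟩
      (by
        intro y
        simp only [LinearMap.smul_apply, LinearMap.id_apply, map_smul]
        exact hx _)
      (by
        intro i y
        simp only [LinearMap.smul_apply, LinearMap.id_apply, map_smul])
    have h3 : (h 3).comp (dX 3) = x • LinearMap.id := by
      ext1 y
      apply LinearMap.ext
      intro z
      have h4 := hh 3 (LinearMap.single B (fun _ => B) y z)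
      have h5 : h 4 (LinearMap.single B (fun _ => B) y z) = 0 := by
        funext j
        have : IsEmpty (Fin (r 5)) := by rw [hr5]; infer_instance
        exact isEmptyElim j
      rw [h5, map_zero, zero_add] at h4
      exact h4.symm
    have h6 : LinearMap.toMatrix' (h 3) * D = x • (1 : Matrix (Fin (r 4)) (Fin (r 4)) B) := by
      rw [hD, ← LinearMap.toMatrix'_comp, h3, map_smul, LinearMap.toMatrix'_id]
    have h7 : D.transpose * (LinearMap.toMatrix' (h 3)).transpose =
        x • (1 : Matrix (Fin (r 4)) (Fin (r 4)) B) := by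
      rw [← Matrix.transpose_mul, h6, Matrix.transpose_smul, Matrix.transpose_one]
    intro n
    obtain ⟨z, rfl⟩ := Submodule.mkQ_surjective _ n
    rw [← map_smul, Submodule.mkQ_apply, Submodule.Quotient.mk_eq_zero]
    refine ⟨(LinearMap.toMatrix' (h 3)).transpose.mulVec z, ?_⟩
    rw [hT, Matrix.mulVecLin_apply, Matrix.mulVec_mulVec, h7, Matrix.smul_mulVec,
      Matrix.one_mulVec]
  have hnt : Nontrivial ((Fin (r 4) → B) ⧸ LinearMap.range T) := by
    rw [Submodule.Quotient.nontrivial_iff]
    intro htop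
    let j : Fin (r 4) := ⟨0, Nat.pos_of_ne_zero hr4⟩
    have h1 : (Pi.single j (1 : B) : Fin (r 4) → B) ∈ LinearMap.range T := by
      rw [htop]; trivial
    obtain ⟨x, hx⟩ := h1
    have h2 := hTm x j
    rw [hx, Pi.single_eq_same] at h2
    exact (Ideal.ne_top_iff_one _).mp (IsLocalRing.maximalIdeal.isMaximal B).ne_top h2
  exact hM B ((Fin (r 4) → B) ⧸ LinearMap.range T) (r 4) (r 3) e T (LinearMap.range T).mkQ hTm
    (Submodule.mkQ_surjective _) (Submodule.ker_mkQ _).symm
    (fun q hq hq' => hann q hq (hle.trans hq')) he heh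

end Pool.Agent.W445.BEDUALM
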