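import Pool.Agent.W894.HT.MLib

/-!
# HN-FWD: a residue computable in polynomial time puts the class in P
-/

namespace Pool.Agent.W445.HNFwd

open Pool.Agent.NPC Pool.Agent.NPC.Cnt Pool.Agent.W894.HT

/-- a polynomial-time function on bit strings, as a program between encoded types -/
theorem poly_of_pt {V : List Bool → List Bool} (hV : PolyTime V) {α : Type} [TEnc α]
    {y : α → List Bool} (hy : PC (bits : α → List Bool) (fun x : List Bool => x) y) :
    Poly (fun a => V (y a)) := by
  have h0 : PC (fun x : List Bool => x) (fun x : List Bool => x) V :=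
    Pool.Agent.H642R2.TMSim.polyTime_toPC hV
  have h2 : PC (bits : α → List Bool) (fun x : List Bool => x) (fun a => V (y a)) :=
    PC.comp (g := V) (f := y) h0 hy
  exact PC.comp (g := fun x : List Bool => x) (f := fun a => V (y a)) PC.ofBits h2

theorem main : S_FWD := by
  intro β _ f D T p q m c hT hD hm hqm hfT hF L hL
  obtain ⟨F, hF, hFD⟩ := hF
  obtain ⟨f₀, ⟨V, r, hV, hf⟩, hL⟩ := hL
  obtain ⟨g, hg, hgf⟩ := parsimonious hV r
  have hg' : Poly g := PC.comp hg pc_raw
  have hTg : Poly (fun x : List Bool => T (g x)) := hT.comp (f := g) hg'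
  have hid : PC (bits : β → List Bool) (fun x : List Bool => x) (fun b => bits b) :=
    (PC.id : PC (bits : β → List Bool) bits (fun b => b))
  have h3 : Poly (fun b : β => valB (F (bits b))) := Poly.valBits (poly_of_pt hF hid)
  have h4 : Poly (fun x : List Bool => valB (F (bits (T (g x))))) :=
    h3.comp (f := fun x => T (g x)) hTg
  have h5 : Poly (fun x : List Bool => decide (valB (F (bits (T (g x)))) % q = c)) :=
    Poly.decide_eq (Poly.mod h4 (NPC.Poly.const q)) (NPC.Poly.const c)
  have h6 : Poly (fun x : List Bool => if valB (F (bits (T (g x)))) % q = c then 0 else 1) :=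
    Poly.ite h5 (NPC.Poly.const 0) (NPC.Poly.const 1)
  refine ⟨_, Pool.Agent.NPC.H549Convex.fp_of_poly h6, fun x => ?_⟩
  have h7 : valB (F (bits (T (g x)))) = f (T (g x)) % m := by
    rw [hFD _ (hD _), valB_bits]
  have h8 : valB (F (bits (T (g x)))) % q = f (T (g x)) % q := by
    rw [h7, Nat.mod_mod_of_dvd _ hqm]
  have h9 : x ∈ L ↔ f (T (g x)) % q ≠ c := by
    rw [hL x, hf x, ← hgf x]
    exact hfT (g x)
  rw [h9, ← h8]
  by_cases hc : valB (F (bits (T (g x)))) % q = c
  · simp [hc]
  · simp [hc]

end Pool.Agent.W445.HNFwd
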